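import Mathlib

/-! Definitions for the truncated series and Morita's p-adic Gamma function. -/

namespace Pool.Agent.MP_030fd4_nt

/-- The rising factorial (x)_k = x (x+1) ... (x+k-1). -/
noncomputable def rising {K : Type*} [Field K] (x : K) (k : ℕ) : K :=
  ∏ i ∈ Finset.range k, (x + (i : K))

/-- The k-th term (1/2)_k (-x)_k (x+1)_k / k!^3. -/
noncomputable def term {K : Type*} [Field K] (x : K) (k : ℕ) : K :=
  rising (1 / 2) k * rising (-x) k * rising (x + 1) k / (k.factorial : K) ^ 3

/-- The sum of the first N terms (k = 0, ..., N-1). -/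
noncomputable def trunc {K : Type*} [Field K] (x : K) (N : ℕ) : K :=
  ∑ k ∈ Finset.range N, term x k

/-- Morita's Gamma function on natural numbers: (-1)^n times the product of all j < n prime to p. -/
def gammaNat (p n : ℕ) : ℤ :=
  (-1) ^ n * ∏ j ∈ (Finset.range n).filter (fun j => ¬ p ∣ j), (j : ℤ)

/-- Morita's Gamma function on p-adic integers: the limit of gammaNat along the residues
of x modulo p^k in {0, ..., p^k - 1}. -/
noncomputable def gammaP (p : ℕ) [Fact p.Prime] (x : ℤ_[p]) : ℤ_[p] :=
  Filter.limUnder Filter.atTop (fun k : ℕ => ((gammaNat p (x.appr k) : ℤ) : ℤ_[p]))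

end Pool.Agent.MP_030fd4_nt
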