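import Pool.Agent.Mg.F030fd4.Gf452e6

/-! The Dwork type congruence for odd last digit. -/

namespace Pool.Agent.MP_030fd4_nt

open Finset

section

variable {K : Type*} [Field K] [CharZero K]

/-- The companion sum. -/
noncomputable def comp (x : K) (N : ℕ) : K := ∑ k ∈ range N, ((k : K) - x * (x + 1)) * term x k

theorem comp_contig (x : K) (N : ℕ) :
    comp x (N + 1) + x ^ 2 * trunc (x - 1) (N + 1) = (2 * N + 1) * (N - x) * term x N := by
  induction N with
  | zero => simp [comp, trunc, term_zero]; ring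
  | succ N ih =>
    have h2 := natCast_add_one_ne (K := K) N
    have e1 := term_down x N
    have e2 : ((N : K) + 1) ^ 3 * term x (N + 1) =
        term x N * ((1 / 2 + N) * (-x + N) * (x + 1 + N)) := by
      rw [term_succ]; field_simp
    unfold comp trunc at ih ⊢
    rw [sum_range_succ _ (N + 1), sum_range_succ _ (N + 1)]
    apply mul_left_cancel₀ (pow_ne_zero 3 h2)
    push_cast
    linear_combination ((N : K) + 1) ^ 3 * ih + x ^ 2 * e1 +
      ((N : K) + 1 - x * (x + 1) - (2 * (N + 1) + 1) * (N + 1 - x)) * e2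

theorem comp_nat {x N : ℕ} (h : x < N) :
    comp (x : K) N = -(x : K) ^ 2 * trunc ((x : K) - 1) N := by
  obtain ⟨N, rfl⟩ : ∃ N', N = N' + 1 := ⟨N - 1, by omega⟩
  have e := comp_contig (x : K) N
  have z : ((N : K) - x) * term (x : K) N = 0 := by
    rcases (by omega : x = N ∨ x < N) with rfl | h'
    · rw [sub_self, zero_mul]
    · rw [term_nat_eq_zero h', mul_zero]
  linear_combination e + (2 * N + 1) * z

theorem comp_even (n : ℕ) {N : ℕ} (h : 2 * n < N) : comp ((2 * n : ℕ) : K) N = 0 := by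
  rw [comp_nat h]
  rcases n with _ | n
  · simp
  · have e := trunc_odd (K := K) n N (by omega)
    rw [show ((2 * (n + 1) : ℕ) : K) - 1 = ((2 * n + 1 : ℕ) : K) by push_cast; ring, e, mul_zero]

theorem comp_odd (n : ℕ) {N : ℕ} (h : 2 * n + 1 < N) :
    comp ((2 * n + 1 : ℕ) : K) N = -(2 * (n : K) + 1) ^ 2 * cen K n ^ 2 := by
  rw [comp_nat h, show ((2 * n + 1 : ℕ) : K) - 1 = ((2 * n : ℕ) : K) by push_cast; ring,
    trunc_even n N (by omega)]
  push_cast
  ring

theorem mom_comp (t : K) (M : ℕ) :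
    mom t M 1 + coA t 0 * mom t M 0 = (comp t M - t * (t + 1) * trunc t M) / 2 := by
  have e : comp t M = ∑ m ∈ range M, term t m * ff (m : K) 1 - t * (t + 1) * trunc t M := by
    unfold comp trunc
    rw [mul_sum, ← sum_sub_distrib]
    refine sum_congr rfl fun m _ => ?_
    simp only [ff, prod_range_one, Nat.cast_zero, sub_zero]
    ring
  rw [mom_zero, e]
  simp only [mom, coA, rising, prod_range_one, Nat.cast_zero]
  ring

end

variable {p : ℕ} [Fact p.Prime]

/-- If the coefficient of the first moment is almost constant, the whole solution is small. -/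
theorem finish_const (hp : 5 ≤ p) {D : ℝ} (g S : ℕ → ℤ_[p] → ℚ_[p])
    (hS : ∀ n t, S n t = g n t - coA (t : ℚ_[p]) n * S (n + 1) t - coB (t : ℚ_[p]) n * S (n + 2) t)
    (h4 : ∀ n t, 4 ≤ n → ‖S n t‖ ≤ D)
    (h3 : ∀ t, ‖g 3 (t + 1) - g 3 t‖ ≤ D) (h2 : ∀ t, ‖g 2 (t + 1) - g 2 t‖ ≤ D)
    (h1 : ∀ t, ‖g 1 (t + 1 + 1) - g 1 (t + 1) - (g 1 (t + 1) - g 1 t)‖ ≤ D)
    (h0 : ∀ t, ‖S 1 (t + 1) - S 1 t‖ ≤ D) : ∀ n t, 2 ≤ n → ‖S n t‖ ≤ D := by
  have key := finish_even hp (D := D)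
    (fun n t => if n = 0 then g 0 t - coA (t : ℚ_[p]) 0 * S 1 t
      else if n = 1 then g 1 t - S 1 t else g n t)
    (fun n t => if n = 1 then 0 else S n t) ?_ ?_ ?_ ?_ ?_ ?_
  · intro n t hn
    have := key n t hn
    rwa [if_neg (by omega)] at this
  · intro n t
    rcases n with _ | _ | n
    · have := hS 0 t
      simp only [if_true, zero_add, zero_ne_one, if_false, OfNat.ofNat_ne_one] at this ⊢
      linear_combination this
    · have := hS 1 t
      simp only [zero_add, one_ne_zero, if_true, if_false, Nat.reduceAdd, OfNat.ofNat_ne_one]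
        at this ⊢
      linear_combination this
    · rw [if_neg (by omega), if_neg (by omega), if_neg (by omega), if_neg (by omega),
        if_neg (by omega)]
      exact hS _ t
  · intro n t hn
    rw [if_neg (by omega)]
    exact h4 n t hn
  · intro t
    simpa using h3 t
  · intro t
    simpa using h2 t
  · intro t
    have := (normGauge p).sub (h1 t) ((normGauge p).sub (h0 (t + 1)) (h0 t))
    change ‖_‖ ≤ D at this
    simp only [one_ne_zero, if_true, if_false]
    convert this using 2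
    ring
  · intro t
    simp

theorem gammaP_lip (hp : 5 ≤ p) (x z : ℤ_[p]) :
    (p : ℤ_[p]) ∣ gammaP p (x + p * z) - gammaP p x := by
  have h0 : ‖(x + p * z) - x‖ ≤ (p : ℝ) ^ (-(1 : ℕ) : ℤ) := by
    rw [add_sub_cancel_left, PadicInt.norm_le_pow_iff_mem_span_pow, Ideal.mem_span_singleton,
      pow_one]
    exact dvd_mul_right _ _
  have h1 := norm_sub_appr (x + (p : ℤ_[p]) * z) (le_refl 1)
  have h2 := gammaP_close hp 1 _ _ h1
  have h3 := gammaP_close hp 1 x _ (norm_sub_trans h0 h1)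
  rw [← norm_neg, neg_sub] at h2 h3
  have h4 := norm_sub_trans h2 h3
  rwa [PadicInt.norm_le_pow_iff_mem_span_pow, Ideal.mem_span_singleton, pow_one] at h4

theorem gfac_lip (hp : 5 ≤ p) (hf y z : ℤ_[p]) :
    ∃ w : ℤ_[p], gfac hf (y + p * z) - gfac hf y = p * w := by
  obtain ⟨u, hu⟩ := gammaP_lip hp (-y) (-z)
  obtain ⟨v, hv⟩ := gammaP_lip hp (y + hf) z
  rw [show -y + p * -z = -(y + p * z) by ring, sub_eq_iff_eq_add] at hu
  rw [show y + hf + p * z = y + p * z + hf by ring, sub_eq_iff_eq_add] at hv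
  refine ⟨(-1) ^ ((p + 1) / 2) * (u * (p * u + 2 * gammaP p (-y)) * (p * v + gammaP p (y + hf)) ^ 2
    + gammaP p (-y) ^ 2 * (v * (p * v + 2 * gammaP p (y + hf)))), ?_⟩
  unfold gfac
  rw [hu, hv]
  have c2 : ((2 : ℤ_[p]) : ℚ_[p]) = 2 := by
    have := PadicInt.coe_natCast (p := p) 2
    rwa [Nat.cast_ofNat, Nat.cast_ofNat] at this
  simp only [PadicInt.coe_add, PadicInt.coe_mul, PadicInt.coe_pow, PadicInt.coe_neg,
    PadicInt.coe_one, PadicInt.coe_natCast, c2]
  ring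

theorem main_odd (hp : 5 ≤ p) {hf : ℤ_[p]} (h2 : 2 * hf = 1) {b : ℕ} (hb : 2 * b + 1 < p)
    (t : ℤ_[p]) (M : ℕ) : ∃ R : ℤ_[p],
      trunc (((2 * b + 1 : ℕ) : ℚ_[p]) + p * t) (p * M) +
        (p : ℚ_[p]) ^ 2 / 4 * gfac hf (b + hf + p * (hf * t)) * comp (t : ℚ_[p]) M =
        (p : ℚ_[p]) ^ 3 * (M : ℚ_[p]) ^ 3 * term (t : ℚ_[p]) M * R := by
  have ho := p_odd hp
  obtain ⟨E⟩ := Eps.nonempty (p := p)
  have hc := G2_c E hp h2 hb
  obtain ⟨S, hS1, hS2, hS3, hS4⟩ := structure_thm E hp hc (cont_c hf (2 * b + 1))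
  have hY := cont_coe (p := p)
  have hA : ∀ s : ℤ_[p], S 0 (2 * s) -
      ((2 * s : ℤ_[p]) : ℚ_[p]) * (((2 * s : ℤ_[p]) : ℚ_[p]) + 1) / 2 * S 1 (2 * s) = 0 := by
    intro s
    have c0 := hS1 0
    have c1 := hS1 1
    refine PadicInt.denseRange_natCast.induction_on s
      (p := fun s : ℤ_[p] => S 0 (2 * s) -
        ((2 * s : ℤ_[p]) : ℚ_[p]) * (((2 * s : ℤ_[p]) : ℚ_[p]) + 1) / 2 * S 1 (2 * s) = 0)
      (isClosed_eq (by fun_prop) continuous_const) fun n => ?_
    have e4 := hS4 ((2 * n : ℕ) : ℤ_[p]) (2 * n + 1)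
    rw [← trunc_blocks hp h2 hb, mom_comp, mom_zero, PadicInt.coe_natCast,
      term_nat_eq_zero (by omega), trunc_even n _ (by omega), comp_even n (by omega)] at e4
    have e := trunc_odd (K := ℚ_[p]) (b + p * n) (p * (2 * n + 1)) (by
      rw [show p * (2 * n + 1) = 2 * (p * n) + p by ring]; omega)
    rw [show ((2 * (b + p * n) + 1 : ℕ) : ℚ_[p]) =
      ((2 * b + 1 : ℕ) : ℚ_[p]) + p * ((2 * n : ℕ) : ℚ_[p]) by push_cast; ring] at e
    rw [e] at e4
    apply mul_right_cancel₀ (pow_ne_zero 2 (cen_ne (K := ℚ_[p]) n))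
    rw [show (2 : ℤ_[p]) * n = ((2 * n : ℕ) : ℤ_[p]) by push_cast; ring, PadicInt.coe_natCast]
    linear_combination -e4
  have hB : ∀ s : ℤ_[p], S 1 (2 * s + 1) =
      -(p : ℚ_[p]) ^ 2 / 2 * gfac hf (((b + p / 2 + 1 : ℕ) : ℤ_[p]) + p * s) := by
    intro s
    have c1 := hS1 1
    have cg := gfac_cont hp hf
    refine PadicInt.denseRange_natCast.induction_on s
      (p := fun s : ℤ_[p] => S 1 (2 * s + 1) =
        -(p : ℚ_[p]) ^ 2 / 2 * gfac hf (((b + p / 2 + 1 : ℕ) : ℤ_[p]) + p * s))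
      (isClosed_eq (by fun_prop) (by fun_prop)) fun n => ?_
    have e4 := hS4 ((2 * n + 1 : ℕ) : ℤ_[p]) (2 * n + 2)
    rw [← trunc_blocks hp h2 hb, mom_comp, mom_zero, PadicInt.coe_natCast,
      term_nat_eq_zero (by omega), trunc_odd n _ (by omega), comp_odd n (by omega)] at e4
    have e2 : 2 * (p * n + (b + p / 2 + 1)) = 2 * b + 1 + p * (2 * n + 1) := by
      rw [mul_add p, mul_left_comm p 2 n]; omega
    have e := trunc_even (K := ℚ_[p]) (p * n + (b + p / 2 + 1)) (p * (2 * n + 2)) (by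
      rw [e2, show p * (2 * n + 2) = p + p * (2 * n + 1) by ring]; omega)
    rw [e2, Nat.cast_add, Nat.cast_mul p] at e
    have c := cen_step hp h2 n (cen_base hp h2 n) (b + p / 2 + 1) (by omega)
    rw [if_neg (by omega)] at c
    rw [e, c] at e4
    apply mul_right_cancel₀ (mul_ne_zero (pow_ne_zero 2 (cen_ne (K := ℚ_[p]) n))
      (pow_ne_zero 2 (half_add_ne (K := ℚ_[p]) n)))
    rw [show (2 : ℤ_[p]) * n + 1 = ((2 * n + 1 : ℕ) : ℤ_[p]) by push_cast; ring,
      show ((b + p / 2 + 1 : ℕ) : ℤ_[p]) + p * n = ((p * n + (b + p / 2 + 1) : ℕ) : ℤ_[p]) by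
        push_cast; ring]
    linear_combination (1 / 2 : ℚ_[p]) * e4
  have hA' : ∀ t : ℤ_[p], S 0 t = (t : ℚ_[p]) * (t + 1) / 2 * S 1 t := by
    intro t
    have := hA (hf * t)
    rw [show 2 * (hf * t) = t by linear_combination t * h2] at this
    linear_combination this
  have hB' : ∀ t : ℤ_[p], S 1 t = -(p : ℚ_[p]) ^ 2 / 2 * gfac hf (b + hf + p * (hf * t)) := by
    intro t
    have := hB (hf * (t - 1))
    have e := half_add hp h2
    rwa [show 2 * (hf * (t - 1)) + 1 = t by linear_combination (t - 1) * h2,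
      show ((b + p / 2 + 1 : ℕ) : ℤ_[p]) + p * (hf * (t - 1)) = b + hf + p * (hf * t) by
        rw [Nat.cast_add, Nat.cast_add, Nat.cast_one]; linear_combination e - h2] at this
  have h0 : ∀ t : ℤ_[p], ‖S 1 (t + 1) - S 1 t‖ ≤ E.e ^ 13 := by
    intro t
    obtain ⟨w, hw⟩ := gfac_lip hp hf (b + hf + p * (hf * t)) hf
    rw [hB', hB', show (b : ℤ_[p]) + hf + p * (hf * (t + 1)) = b + hf + p * (hf * t) + p * hf by
      ring, ← mul_sub, hw,
      show -(p : ℚ_[p]) ^ 2 / 2 * (p * w) = -((p : ℚ_[p]) ^ 3 * (1 / 2 * w)) by ring, norm_neg]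
    have h1 : ‖(p : ℚ_[p]) ^ 3‖ ≤ E.e ^ 13 := by
      rw [norm_pow, norm_p_eq E, ← pow_mul]
      exact E.le (by omega)
    exact (normGauge p).mul1' h1 ((normGauge p).mul1 (norm_half hp) (PadicInt.norm_le_one w))
  have hsm := finish_const hp (gco (fc hf (2 * b + 1))) S hS2 hS3
    (fun t => gco_bound E hp hc 3 1 13 (fun v _ hv => by omega) t)
    (fun t => gco_bound E hp hc 2 1 13 (fun v _ hv => by omega) t)
    (fun t => gco_bound E hp hc 1 2 13 (fun v _ hv => by omega) t) h0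
  obtain ⟨R, hR⟩ := exists_cube E (x := ∑ i ∈ range M, S (i + 2) t *
      (rising (1 / 2) (i + 1) * ff ((M : ℚ_[p]) - 1) i))
    ((normGauge p).sum _ _ (pow_pos E.pos _).le fun i _ => (normGauge p).mul1'
      (hsm (i + 2) t (by omega)) ((normGauge p).mul1 (norm_rising_half hp _) (norm_ff M i)))
  refine ⟨R, ?_⟩
  rw [trunc_blocks hp h2 hb, hS4, hR, hA', hB', mom_comp, mom_zero]
  ring

end Pool.Agent.MP_030fd4_nt
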