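import Pool.Agent.MP_030fd4_nt.Odd

/-! Two odd digits: the two step congruence. -/

namespace Pool.Agent.MP_030fd4_nt

open Finset

variable {p : ℕ} [Fact p.Prime]

theorem gammaP_refl_sq (hp : 5 ≤ p) (x : ℤ_[p]) :
    (gammaP p (x + 1) * gammaP p (-x)) ^ 2 = 1 := by
  have hc := gammaP_cont hp
  refine PadicInt.denseRange_natCast.induction_on x
    (p := fun x : ℤ_[p] => (gammaP p (x + 1) * gammaP p (-x)) ^ 2 = 1)
    (isClosed_eq (by fun_prop) continuous_const) fun n => ?_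
  rw [gammaP_refl_nat hp, ← pow_mul, mul_comm, pow_mul, neg_one_sq, one_pow]

theorem gfac_shift (hp : 5 ≤ p) {hf : ℤ_[p]} (h2 : 2 * hf = 1) {y : ℤ_[p]}
    (hy : ¬ (p : ℤ_[p]) ∣ y + hf) :
    ((y : ℚ_[p]) + 1 / 2) ^ 2 * gfac hf y * gfac hf (y + hf) = 1 := by
  have e1 := gammaP_refl_sq hp y
  have e2 := gammaP_refl_sq hp (y + hf)
  rw [gammaP_succ_unit hp hy] at e2
  have e3 : (y + hf) ^ 2 * (gammaP p (-y) ^ 2 * gammaP p (y + hf) ^ 2) *
      (gammaP p (-(y + hf)) ^ 2 * gammaP p (y + 1) ^ 2) = 1 := by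
    linear_combination (gammaP p (y + 1) * gammaP p (-y)) ^ 2 * e2 + e1
  have e4 := congrArg (fun z : ℤ_[p] => (z : ℚ_[p])) e3
  simp only [PadicInt.coe_mul, PadicInt.coe_pow, PadicInt.coe_add, PadicInt.coe_one,
    coe_half h2] at e4
  have e5 : ((-1 : ℚ_[p]) ^ ((p + 1) / 2)) ^ 2 = 1 := by
    rw [← pow_mul, mul_comm, pow_mul, neg_one_sq, one_pow]
  unfold gfac
  rw [show y + hf + hf = y + 1 by linear_combination h2]
  linear_combination ((-1 : ℚ_[p]) ^ ((p + 1) / 2)) ^ 2 * e4 + e5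

theorem not_dvd_digit {d : ℕ} (h0 : 0 < d) (h : d < p) (z : ℤ_[p]) :
    ¬ (p : ℤ_[p]) ∣ (d : ℤ_[p]) + p * z := fun hd =>
  not_dvd_of_lt h0 h ((dvd_natCast_iff d).1 ((dvd_add_left (dvd_mul_right _ z)).1 hd))

/-- The companion sum for an odd last digit. -/
theorem comp_main_odd (hp : 5 ≤ p) {hf : ℤ_[p]} (h2 : 2 * hf = 1) {c : ℕ} (hc : 2 * c + 1 < p)
    (s : ℤ_[p]) (M : ℕ) : ∃ R : ℤ_[p],
      gfac hf (c + hf + p * (hf * s)) * comp (((2 * c + 1 : ℕ) : ℚ_[p]) + p * s) (p * M) +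
        4 * trunc (s : ℚ_[p]) M = (p : ℚ_[p]) ^ 3 * (M : ℚ_[p]) ^ 3 * term (s : ℚ_[p]) M * R := by
  rcases Nat.eq_zero_or_pos M with rfl | hM
  · exact ⟨0, by simp [comp, trunc]⟩
  obtain ⟨E⟩ := Eps.nonempty (p := p)
  obtain ⟨R, hR⟩ := main_even hp h2 (b := c) (by omega) s M
  obtain ⟨N, hN⟩ : ∃ N, p * M = N + 1 := ⟨p * M - 1, by
    have := Nat.mul_pos (by omega : 0 < p) hM; omega⟩
  have hN' : (p : ℚ_[p]) * M = N + 1 := by exact_mod_cast hN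
  have e1 := comp_contig (((2 * c + 1 : ℕ) : ℚ_[p]) + p * s) N
  have e2 := term_succ (((2 * c + 1 : ℕ) : ℚ_[p]) + p * s) N
  have e3 := term_block hp h2 hc s M
  rw [← hN] at e1 e2
  rw [show ((2 * c + 1 : ℕ) : ℚ_[p]) + p * s - 1 = ((2 * c : ℕ) : ℚ_[p]) + p * s by
    push_cast; ring] at e1
  have hu : IsUnit (((2 * c + 1 : ℕ) : ℤ_[p]) + p * (s + M)) := by
    by_contra h
    exact not_dvd_digit (by omega) hc _ ((PadicInt.norm_lt_one_iff_dvd _).1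
      (PadicInt.not_isUnit_iff.1 h))
  obtain ⟨w, hw⟩ := hu.exists_right_inv
  have hw' := congrArg (fun z : ℤ_[p] => (z : ℚ_[p])) hw
  simp only [PadicInt.coe_mul, PadicInt.coe_add, PadicInt.coe_one, PadicInt.coe_natCast] at hw'
  have hy : ¬ (p : ℤ_[p]) ∣ (c : ℤ_[p]) + p * (hf * s) + hf := by
    intro h
    have := h.mul_left 2
    rw [show 2 * ((c : ℤ_[p]) + p * (hf * s) + hf) = ((2 * c + 1 : ℕ) : ℤ_[p]) + p * s by
      push_cast; linear_combination (p * s + 1) * h2] at this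
    exact not_dvd_digit (by omega) hc _ this
  have g := gfac_shift hp h2 hy
  rw [show (c : ℤ_[p]) + p * (hf * s) + hf = c + hf + p * (hf * s) by ring] at g
  simp only [PadicInt.coe_mul, PadicInt.coe_add, PadicInt.coe_natCast, coe_half h2] at g
  have nG : ∀ y : ℤ_[p], ‖gfac hf y‖ ≤ 1 := fun y =>
    (normGauge p).mul1 ((normGauge p).mul1
      (by simpa using (normGauge p).pow ((normGauge p).neg (normGauge p).one) ((p + 1) / 2))
      (by simpa using (normGauge p).pow (PadicInt.norm_le_one (gammaP p (-y))) 2))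
      (by simpa using (normGauge p).pow (PadicInt.norm_le_one (gammaP p (y + hf))) 2)
  let Gz : ℤ_[p] := ⟨gfac hf (c + hf + p * (hf * s)), nG _⟩
  let Uz : ℤ_[p] := ⟨fU hf (2 * c + 1) M s, G2_pt E (G2_U E hp h2 hc) M s⟩
  refine ⟨Gz * ((2 : ℕ) * w * Uz -
    (((2 * c + 1 : ℕ) : ℤ_[p]) + p * s) * (((2 * c + 1 : ℕ) : ℤ_[p]) + p * s) * R), ?_⟩
  have cG : (Gz : ℚ_[p]) = gfac hf (c + hf + p * (hf * s)) := rfl
  have cU : (Uz : ℚ_[p]) = fU hf (2 * c + 1) M s := rfl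
  simp only [PadicInt.coe_mul, PadicInt.coe_add, PadicInt.coe_sub, PadicInt.coe_natCast, cG, cU]
  have h1 := natCast_add_one_ne (K := ℚ_[p]) N
  have e4 : ((N : ℚ_[p]) + 1) ^ 3 * (term (s : ℚ_[p]) M * fU hf (2 * c + 1) M s) =
      term (((2 * c + 1 : ℕ) : ℚ_[p]) + p * s) N *
        ((1 / 2 + N) * (-(((2 * c + 1 : ℕ) : ℚ_[p]) + p * s) + N) *
          (((2 * c + 1 : ℕ) : ℚ_[p]) + p * s + 1 + N)) := by
    rw [← e3, e2]; field_simp
  have e5 : (2 * (N : ℚ_[p]) + 1) * (N - (((2 * c + 1 : ℕ) : ℚ_[p]) + p * s)) *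
      term (((2 * c + 1 : ℕ) : ℚ_[p]) + p * s) N =
      2 * w * ((p : ℚ_[p]) * M) ^ 3 * (term (s : ℚ_[p]) M * fU hf (2 * c + 1) M s) := by
    have e6 : (((2 * c + 1 : ℕ) : ℚ_[p]) + p * s + 1 + N) * w = 1 := by
      linear_combination hw' - (w : ℚ_[p]) * hN'
    rw [hN']
    linear_combination (-2 * w) * e4 - (2 * (N : ℚ_[p]) + 1) *
      (N - (((2 * c + 1 : ℕ) : ℚ_[p]) + p * s)) * term (((2 * c + 1 : ℕ) : ℚ_[p]) + p * s) N * e6
  rw [e5] at e1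
  push_cast at e1 hR g ⊢
  linear_combination gfac hf (c + hf + p * (hf * s)) * e1 -
    gfac hf (c + hf + p * (hf * s)) * (2 * c + 1 + (p : ℚ_[p]) * s) ^ 2 * hR -
    4 * trunc (s : ℚ_[p]) M * g

theorem two_step (hp : 5 ≤ p) {hf : ℤ_[p]} (h2 : 2 * hf = 1) {b c : ℕ} (hb : 2 * b + 1 < p)
    (hc : 2 * c + 1 < p) (t s : ℤ_[p]) (ht : t = ((2 * c + 1 : ℕ) : ℤ_[p]) + p * s) (M : ℕ) :
    ∃ R : ℤ_[p],
      gfac hf (c + hf + p * (hf * s)) * trunc (((2 * b + 1 : ℕ) : ℚ_[p]) + p * t) (p ^ 2 * M) -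
        (p : ℚ_[p]) ^ 2 * gfac hf (b + hf + p * (hf * t)) * trunc (s : ℚ_[p]) M =
        (p : ℚ_[p]) ^ 5 * (M : ℚ_[p]) ^ 3 * term (s : ℚ_[p]) M * R := by
  obtain ⟨E⟩ := Eps.nonempty (p := p)
  obtain ⟨R1, h1⟩ := main_odd hp h2 hb t (p * M)
  obtain ⟨R2, h3⟩ := comp_main_odd hp h2 hc s M
  have et : (t : ℚ_[p]) = ((2 * c + 1 : ℕ) : ℚ_[p]) + p * s := by
    rw [ht, PadicInt.coe_add, PadicInt.coe_mul, PadicInt.coe_natCast, PadicInt.coe_natCast]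
  have e3 := term_block hp h2 hc s M
  rw [← et] at h3 e3
  rw [e3, ← mul_assoc p p M, ← sq] at h1
  have nG : ∀ y : ℤ_[p], ‖gfac hf y‖ ≤ 1 := fun y =>
    (normGauge p).mul1 ((normGauge p).mul1
      (by simpa using (normGauge p).pow ((normGauge p).neg (normGauge p).one) ((p + 1) / 2))
      (by simpa using (normGauge p).pow (PadicInt.norm_le_one (gammaP p (-y))) 2))
      (by simpa using (normGauge p).pow (PadicInt.norm_le_one (gammaP p (y + hf))) 2)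
  let G1 : ℤ_[p] := ⟨gfac hf (c + hf + p * (hf * s)), nG _⟩
  let G0 : ℤ_[p] := ⟨gfac hf (b + hf + p * (hf * t)), nG _⟩
  let Uz : ℤ_[p] := ⟨fU hf (2 * c + 1) M s, G2_pt E (G2_U E hp h2 hc) M s⟩
  refine ⟨G1 * p * Uz * R1 - hf * hf * G0 * R2, ?_⟩
  have c1 : (G1 : ℚ_[p]) = gfac hf (c + hf + p * (hf * s)) := rfl
  have c0 : (G0 : ℚ_[p]) = gfac hf (b + hf + p * (hf * t)) := rfl
  have cU : (Uz : ℚ_[p]) = fU hf (2 * c + 1) M s := rfl
  simp only [PadicInt.coe_mul, PadicInt.coe_sub, PadicInt.coe_natCast, c1, c0, cU, coe_half h2]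
  rw [Nat.cast_mul] at h1
  linear_combination gfac hf (c + hf + p * (hf * s)) * h1 -
    (p : ℚ_[p]) ^ 2 / 4 * gfac hf (b + hf + p * (hf * t)) * h3

end Pool.Agent.MP_030fd4_nt
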